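import Pool.Agent.MNE.StmtsB

/-!
# MNE row PER : perturbation of a determinant
-/

set_option autoImplicit false

open scoped BigOperators

namespace Pool.Agent.MNE.H45

open Pool.Agent.MNE

theorem prod_sub_one {ι : Type} (s : Finset ι) (x : ι → ℝ) (δ : ℝ) (h0 : 0 ≤ δ) (h1 : δ ≤ 1)
    (hx : ∀ i, |x i| ≤ δ) : |∏ i ∈ s, (1 + x i) - 1| ≤ (2 ^ s.card - 1) * δ := by
  classical
  induction s using Finset.induction_on with
  | empty => simp
  | insert a s ha ih =>
    rw [Finset.prod_insert ha, Finset.card_insert_of_notMem ha]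
    have e1 : (1 + x a) * ∏ i ∈ s, (1 + x i) - 1
        = (1 + x a) * (∏ i ∈ s, (1 + x i) - 1) + x a := by ring
    rw [e1]
    have h2 : |1 + x a| ≤ 2 := by
      have := hx a
      have := abs_le.1 this
      exact abs_le.2 ⟨by linarith, by linarith⟩
    have h3 : 0 ≤ ((2 : ℝ) ^ s.card - 1) * δ := le_trans (abs_nonneg _) ih
    calc |(1 + x a) * (∏ i ∈ s, (1 + x i) - 1) + x a|
        ≤ |(1 + x a) * (∏ i ∈ s, (1 + x i) - 1)| + |x a| := abs_add_le _ _
      _ = |1 + x a| * |∏ i ∈ s, (1 + x i) - 1| + |x a| := by rw [abs_mul]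
      _ ≤ 2 * ((2 ^ s.card - 1) * δ) + δ := by
          have := mul_le_mul h2 ih (abs_nonneg _) (by norm_num)
          linarith [hx a]
      _ = (2 ^ (s.card + 1) - 1) * δ := by ring

theorem per : PerStmt := by
  intro D a e E δ h0 h1 hE he
  have hE0 : ∀ i, 0 ≤ E i := fun i => le_trans (abs_nonneg _) (hE i i)
  have hP : 0 ≤ ∏ i, E i := Finset.prod_nonneg fun i _ => hE0 i
  rw [Matrix.det_apply', Matrix.det_apply', ← Finset.sum_sub_distrib]
  have hterm : ∀ σ : Equiv.Perm (Fin D),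
      |(↑↑(Equiv.Perm.sign σ) : ℝ) * ∏ i, (Matrix.of fun i j : Fin D => a i j * (1 + e i j)) (σ i) i
        - (↑↑(Equiv.Perm.sign σ) : ℝ) * ∏ i, (Matrix.of a) (σ i) i|
      ≤ (∏ i, E i) * (2 ^ D * δ) := by
    intro σ
    simp only [Matrix.of_apply]
    rw [← mul_sub, abs_mul, Finset.prod_mul_distrib]
    have hs : |(↑↑(Equiv.Perm.sign σ) : ℝ)| = 1 := by
      rcases Int.units_eq_one_or (Equiv.Perm.sign σ) with h | h <;> simp [h]
    rw [hs, one_mul]
    have e2 : (∏ i, a (σ i) i) * (∏ i, (1 + e (σ i) i)) - ∏ i, a (σ i) i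
        = (∏ i, a (σ i) i) * ((∏ i, (1 + e (σ i) i)) - 1) := by ring
    rw [e2, abs_mul]
    have h3 : |∏ i, a (σ i) i| ≤ ∏ i, E i := by
      rw [Finset.abs_prod, ← Equiv.prod_comp σ E]
      exact Finset.prod_le_prod (fun i _ => abs_nonneg _) fun i _ => hE (σ i) i
    have h4 := prod_sub_one Finset.univ (fun i => e (σ i) i) δ h0 h1 fun i => he (σ i) i
    simp only [Finset.card_univ, Fintype.card_fin] at h4
    have h5 : |∏ i, (1 + e (σ i) i) - 1| ≤ 2 ^ D * δ := by
      refine le_trans h4 ?_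
      nlinarith
    exact mul_le_mul h3 h5 (abs_nonneg _) hP
  refine le_trans (Finset.abs_sum_le_sum_abs _ _) ?_
  refine le_trans (Finset.sum_le_sum fun σ _ => hterm σ) ?_
  rw [Finset.sum_const, nsmul_eq_mul, Finset.card_univ, Fintype.card_perm, Fintype.card_fin]
  apply le_of_eq
  ring

end Pool.Agent.MNE.H45
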